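import Pool.Agent.Helper78.CG.Goals

/-!
# Project CG, packet CGA: the analysis of the generator
-/

set_option autoImplicit false

namespace Pool.Agent.Helper12.CG

open Pool.Agent.Helper78.DT Pool.Agent.Helper78.JT Pool.Agent.Helper39.DT
open Pool.Agent.Helper63.JT Pool.Agent.Helper78.CG
open scoped Classical

theorem coins_range {n N : ℕ} (h : n ≤ N) (f : ℕ → Bool) :
    coins n ((List.range N).map f) = fun v : Fin n => f v := by
  funext v
  unfold coins
  have hv : (v : ℕ) < ((List.range N).map f).length := by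
    rw [List.length_map, List.length_range]
    exact lt_of_lt_of_le v.2 h
  rw [List.getD_eq_getElem _ _ hv]
  simp

theorem cut_val {n : ℕ} (f : ℕ → Bool) : (fun v : Fin n => cut n f v) = fun v : Fin n => f v := by
  funext v
  unfold cut
  simp [v.2]

theorem prob_eq_pr {n : ℕ} (A : Set (Fin n → Bool)) :
    prob A = pr (fun b : Fin n → Bool => b ∈ A) := by
  rw [pr_eq_card]
  unfold prob
  congr 1
  simp

theorem frac_gen (c a β e C n N : ℕ) (h : n ≤ N) (A : Set (Fin n → Bool)) :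
    frac (gen c a β e C N) A =
      ((((List.range (znj c a β e C N)).filter fun i =>
        decide ((fun v : Fin n => bitj c a β e (lg N) i v) ∈ A)).length : ℕ) : ℝ) /
        (znj c a β e C N : ℕ) := by
  unfold frac gen
  rw [List.filter_map, List.length_map, List.length_map, List.length_range]
  congr 3
  apply List.filter_congr
  intro i _
  simp only [Function.comp_apply]
  rw [coins_range h]

theorem cga (hCgl : CglStmt) : CgaStmt := by
  intro c1 c0 e
  obtain ⟨a, β, L1, h1⟩ := pjaS (c0 + c1) e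
  obtain ⟨C, L2, h2⟩ := Pool.Agent.Helper73.JT.pjb Pool.Agent.Helper3.JT.tlj (c0 + c1) a e β
  refine ⟨a, β, C, max (max L1 L2) 1, ?_⟩
  intro n N r A hnN hCert hr hL
  obtain ⟨F, hLi, hF1, hF2⟩ := hCgl n (c1 * lg N) r A hCert
  rw [frac_gen _ _ _ _ _ _ _ hnN]
  set c := c0 + c1 with hc
  set L := lg N with hLdef
  obtain ⟨hP, hK0, hKP, hq0, hδ, hε, hD, hch, hη, hη1, hκ, hηt, herr⟩ :=
    h1 L (le_trans (le_trans (le_max_left _ _) (le_max_left _ _)) hL) r hr
  obtain ⟨n1, n2⟩ := two_pow_lg N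
  rw [← hLdef] at n1 n2
  have hL1 : 1 ≤ L := le_trans (le_max_right _ _) hL
  have hcap : 2 ^ (C * L) ≤ (4 * N + 4) ^ C := by
    rw [mul_comm, pow_mul]
    exact Nat.pow_le_pow_left n2 C
  have hZ := h2 L (le_trans (le_trans (le_max_right _ _) (le_max_left _ _)) hL) _ hcap
  have hzn : znj c a β e C N = ZZj c a β e L := hZ
  have hZl : 0 < Zl (Rj a e L) (dj a e L) (e + 1) :=
    Zl_pos fun j hj => (hch j (by omega)).1.pos
  have hZpos : 0 < ZZj c a β e L := by
    unfold ZZj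
    exact Nat.mul_pos (Nat.mul_pos (pow_pos hP.pos _) hZl)
      (pow_pos (Nat.mul_pos hq0 hP.pos) _)
  set G : (ℕ → ℕ) → ℕ → (ℕ → ℕ) → Bool := fun A' θ s'' =>
    decide ((fun v : Fin n => cnj
        (fun x u => sb (Pj c L) (Dj a e L) (ch (Rj a e L) (dj a e L) θ x (e + 1)) u)
        (Pj c L) (Kj c a β e L) (tj a e L) L A' s'' v) ∈ A) with hG
  have hdig := Pool.Agent.Helper27.JT.dgj (Pj c L) (Zl (Rj a e L) (dj a e L) (e + 1))
    (qj c L * Pj c L) (tj a e L + 2) (Kj c a β e L) G (by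
      intro A1 A2 s1 s2 θ e1 e2
      simp only [hG]
      rw [cnj_congr hK0 e1 e2]) (by
      intro A1 s1 θ
      simp only [hG]
      have e1 : ∀ x, ch (Rj a e L) (dj a e L) (θ % Zl (Rj a e L) (dj a e L) (e + 1)) x (e + 1) =
          ch (Rj a e L) (dj a e L) θ x (e + 1) := fun x => ch_mod _ _ _ _ _ _ le_rfl
      simp only [e1])
  set ρ' : ℝ := pr fun z : (Fin (tj a e L + 2) → Fin (Pj c L)) ×
    Fin (Zl (Rj a e L) (dj a e L) (e + 1)) ×
    (Fin (Kj c a β e L) → Fin (qj c L * Pj c L)) => G (ext z.1) z.2.1 (ext z.2.2) = true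
    with hρ'
  have hfr : ((((List.range (znj c a β e C N)).filter fun i =>
        decide ((fun v : Fin n => bitj c a β e L i v) ∈ A)).length : ℕ) : ℝ) /
        (znj c a β e C N : ℕ) = ρ' := by
    rw [hzn]
    have hZr : ((ZZj c a β e L : ℕ) : ℝ) ≠ 0 := by exact_mod_cast hZpos.ne'
    rw [div_eq_iff hZr, mul_comm]
    exact hdig
  rw [hfr]
  set ρ : ℝ := pr fun z : (Fin (tj a e L + 2) → Fin (Pj c L)) ×
    Fin (Zl (Rj a e L) (dj a e L) (e + 1)) ×
    (Fin (Kj c a β e L) → Fin (qj c L * Pj c L)) =>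
      F (Kj c a β e L) (tj a e L) (pt (Pj c L) (Kj c a β e L) (tj a e L) L (ext z.1))
      (cut n (cnj
        (fun x u => sb (Pj c L) (Dj a e L) (ch (Rj a e L) (dj a e L) z.2.1 x (e + 1)) u)
        (Pj c L) (Kj c a β e L) (tj a e L) L (ext z.1) (ext z.2.2))) = true
    with hρ
  have hle : ρ ≤ ρ' := by
    rw [hρ, hρ']
    refine pr_mono fun z hz => ?_
    have h3 := hF2 _ _ _ _ hz
    rw [cut_val] at h3
    simp only [hG]
    exact decide_eq_true h3
  have hLi' : ListsJ n (WW c L) r F :=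
    listsJ_mono (by unfold WW; exact Nat.mul_le_mul_right _ (by omega)) hLi
  have htot := tgjS n (WW c L) (Kj c a β e L) (tj a e L) L (Pj c L) (qj c L) r (sj a e L)
    (Dj a e L) e (Rj a e L) (dj a e L) (kj a e L) (Mj c a e L) (ηp a) (κj a e L) (δj c L)
    (εj a e L) F hLi' hP hK0 hKP hq0 (by omega) hδ hε hD rfl (fun j => rfl) hch hη hη1 hκ hηt
  have htot' : |ρ - pr (fun b : Fin n → Bool => F 0 0 (fun _ => 0) (cf b) = true)| <
      1 / (2 * (L : ℝ) ^ c) := lt_of_le_of_lt htot herr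
  have hL1r : (1 : ℝ) ≤ L := by exact_mod_cast hL1
  have hlc : (0 : ℝ) < (L : ℝ) ^ c0 := pow_pos (by linarith) c0
  have hLc : (L : ℝ) ^ c0 ≤ (L : ℝ) ^ c := pow_le_pow_right₀ hL1r (by omega)
  have hbd : 1 / (2 * (L : ℝ) ^ c) ≤ 1 / (L : ℝ) ^ c0 :=
    one_div_le_one_div_of_le hlc (by linarith)
  have hpr : prob A ≤ pr (fun b : Fin n → Bool => F 0 0 (fun _ => 0) (cf b) = true) := by
    rw [prob_eq_pr]
    exact pr_mono fun b hb => hF1 b hb
  have h5 := (abs_lt.1 htot').1
  linarith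

end Pool.Agent.Helper12.CG
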