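import Pool.Agent.Helper54.CG.Goals

/-!
# Project CG (MP_c70db9_ag), packet MR: two polynomial identities
-/

set_option autoImplicit false

namespace Pool.Agent.Helper12.CG.MR

open MvPolynomial Pool.Agent.Helper16.Cusp Pool.Agent.Helper54.CG

theorem t : G_MR := by
  unfold G_MR Pool.Agent.Helper54.CG.pull pM pR
  simp only [map_sub, map_add, map_mul, map_pow, aeval_X, map_ofNat]
  have e0 : ff 0 = pA := rfl
  have e1 : ff 1 = pB := rfl
  have e2 : ff 2 = pC := rfl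
  rw [e0, e1, e2]
  unfold pA pB pC
  ring

/-- The matrix of the derivative. -/
noncomputable def JM (v : V) : Matrix (Fin 3) (Fin 3) ℂ := fun i j => eval v (pderiv j (ff i))

theorem dd_eq (v u : V) (i : Fin 3) : dd (ff i) v u = (JM v).mulVec u i := by
  simp only [dd, JM, Matrix.mulVec, dotProduct]
  exact Finset.sum_congr rfl fun j _ => mul_comm _ _

theorem pd_nat (j : Fin 3) (n : ℕ) : pderiv j ((n : ℕ) : R) = 0 := by
  rw [← map_natCast (C : ℂ →+* R) n]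
  exact pderiv_C

theorem pd4 (j : Fin 3) : pderiv j (4 : R) = 0 := by exact_mod_cast pd_nat j 4

theorem pd9 (j : Fin 3) : pderiv j (9 : R) = 0 := by exact_mod_cast pd_nat j 9

theorem pd12 (j : Fin 3) : pderiv j (12 : R) = 0 := by exact_mod_cast pd_nat j 12

theorem pd27 (j : Fin 3) : pderiv j (27 : R) = 0 := by exact_mod_cast pd_nat j 27

theorem pd36 (j : Fin 3) : pderiv j (36 : R) = 0 := by exact_mod_cast pd_nat j 36

theorem pd216 (j : Fin 3) : pderiv j (216 : R) = 0 := by exact_mod_cast pd_nat j 216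

theorem pd972 (j : Fin 3) : pderiv j (972 : R) = 0 := by exact_mod_cast pd_nat j 972

theorem j0 (v : V) : JM v 0 = ![3 * v 0 ^ 2 - 36 * v 1, -36 * v 0, 648 * v 2 ^ 2] := by
  funext j
  fin_cases j <;>
  simp [JM, ff, pA, pderiv_X, Derivation.leibniz, Derivation.leibniz_pow, pd4, pd9, pd12, pd27, pd36, pd216, pd972] <;> ring

theorem j1 (v : V) : JM v 1 = ![-108 * v 0 * v 1 * (v 0 ^ 2 - 4 * v 1) +
      972 * v 2 ^ 3 * (3 * v 0 ^ 2 - 4 * v 1),
    -27 * (v 0 ^ 2 - 4 * v 1) ^ 2 + 216 * v 1 * (v 0 ^ 2 - 4 * v 1) - 3888 * v 0 * v 2 ^ 3,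
    2916 * v 2 ^ 2 * (v 0 ^ 3 - 4 * v 0 * v 1 + 12 * v 2 ^ 3) + 34992 * v 2 ^ 5] := by
  funext j
  fin_cases j <;>
  simp [JM, ff, pB, pderiv_X, Derivation.leibniz, Derivation.leibniz_pow, pd4, pd9, pd12, pd27, pd36, pd216, pd972] <;> ring

theorem j2 (v : V) : JM v 2 = ![18 * v 0 * v 2, -36 * v 2, 9 * (v 0 ^ 2 - 4 * v 1)] := by
  funext j
  fin_cases j <;>
  simp [JM, ff, pC, pderiv_X, Derivation.leibniz, Derivation.leibniz_pow, pd4, pd9, pd12, pd27, pd36, pd216, pd972] <;> ring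

/-- The Jacobian determinant. -/
theorem det_eq (v : V) : (JM v).det = -9 * eval v pR ^ 2 := by
  have h0 := j0 v
  have h1 := j1 v
  have h2 := j2 v
  have e : JM v = !![3 * v 0 ^ 2 - 36 * v 1, -36 * v 0, 648 * v 2 ^ 2;
      -108 * v 0 * v 1 * (v 0 ^ 2 - 4 * v 1) + 972 * v 2 ^ 3 * (3 * v 0 ^ 2 - 4 * v 1),
      -27 * (v 0 ^ 2 - 4 * v 1) ^ 2 + 216 * v 1 * (v 0 ^ 2 - 4 * v 1) - 3888 * v 0 * v 2 ^ 3,
      2916 * v 2 ^ 2 * (v 0 ^ 3 - 4 * v 0 * v 1 + 12 * v 2 ^ 3) + 34992 * v 2 ^ 5;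
      18 * v 0 * v 2, -36 * v 2, 9 * (v 0 ^ 2 - 4 * v 1)] := by
    ext i j
    fin_cases i
    · exact congrFun h0 j
    · exact congrFun h1 j
    · exact congrFun h2 j
  have eR : eval v pR = 9 * (v 0 ^ 4 + 8 * v 0 ^ 2 * v 1 - 48 * v 1 ^ 2 + 288 * v 0 * v 2 ^ 3) := by
    unfold pR
    simp only [map_sub, map_add, map_mul, map_pow, eval_X, map_ofNat]
  rw [e, eR, Matrix.det_fin_three]
  simp only [Matrix.of_apply, Matrix.cons_val', Matrix.cons_val_zero, Matrix.cons_val_one,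
    Matrix.cons_val_two, Matrix.cons_val, Matrix.head_cons, Matrix.tail_cons]
  ring

theorem t2 : G_INV := by
  intro v hv u'
  have hd : IsUnit (JM v).det := by
    rw [det_eq, isUnit_iff_ne_zero]
    exact mul_ne_zero (by norm_num) (pow_ne_zero 2 hv)
  refine ⟨(JM v)⁻¹.mulVec u', fun i => ?_⟩
  rw [dd_eq, Matrix.mulVec_mulVec, Matrix.mul_nonsing_inv _ hd, Matrix.one_mulVec]

end Pool.Agent.Helper12.CG.MR
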